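import Pool.Agent.H23.SendMain

set_option autoImplicit false

open Polynomial

namespace Pool.Agent.Results.MP_f0bc87_an.LowDegree

lemma two_mul_le (t : Multiset ℂ) (a : ℂ) :
    2 * (t.map (fun w : ℂ => ‖w - a‖⁻¹)).sum - (t.card : ℝ)
      ≤ (t.map (fun w : ℂ => (‖w - a‖ ^ 2)⁻¹)).sum := by
  induction t using Multiset.induction_on with
  | empty => simp
  | cons w t ih =>
    simp only [Multiset.map_cons, Multiset.sum_cons, Multiset.card_cons]
    push_cast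
    have : 2 * ‖w - a‖⁻¹ - 1 ≤ (‖w - a‖ ^ 2)⁻¹ := by
      rw [← inv_pow]; nlinarith [sq_nonneg (‖w - a‖⁻¹ - 1)]
    linarith

/-- The statement of the problem for `n = m + 1 ≤ 5`, with the exponent `-1` as well as `-2`. -/
theorem full :
    ∀ (m : ℕ), 1 ≤ m → m ≤ 4 → ∀ (a : ℝ), 0 ≤ a → a ≤ 1 → ∀ z : Fin m → ℂ, (∀ j, ‖z j‖ ≤ 1) →
      ((a : ℂ) ∈ (derivative ((X - C (a : ℂ)) * ∏ j, (X - C (z j)))).roots) ∨
      ((m : ℝ) ≤ (((derivative ((X - C (a : ℂ)) * ∏ j, (X - C (z j)))).roots).map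
          (fun w : ℂ => (‖w - (a : ℂ)‖ ^ 2)⁻¹)).sum ∧
       (m : ℝ) ≤ (((derivative ((X - C (a : ℂ)) * ∏ j, (X - C (z j)))).roots).map
          (fun w : ℂ => ‖w - (a : ℂ)‖⁻¹)).sum) := by
  intro m h1 h4 a ha0 ha1 z hz
  obtain ⟨P, hP⟩ : ∃ P : ℂ[X], P = (X - C (a : ℂ)) * ∏ j, (X - C (z j)) := ⟨_, rfl⟩
  rw [← hP]
  by_cases h : (a : ℂ) ∈ (derivative P).roots
  · exact Or.inl h
  right
  have hm : (∏ j, (X - C (z j)) : ℂ[X]).Monic := monic_prod_of_monic _ _ (fun j _ => monic_X_sub_C _)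
  have hdeg : P.natDegree = m + 1 := by
    rw [hP, (monic_X_sub_C _).natDegree_mul hm, natDegree_X_sub_C,
      natDegree_prod_of_monic _ _ (fun j _ => monic_X_sub_C _)]
    simp [add_comm]
  have hP0 : P ≠ 0 := by rw [hP]; exact ((monic_X_sub_C _).mul hm).ne_zero
  have hroots : ∀ w ∈ P.roots, ‖w‖ ≤ 1 := by
    intro w hw
    have h0 := (mem_roots hP0).1 hw
    rw [IsRoot.def, hP, eval_mul, eval_prod, mul_eq_zero, Finset.prod_eq_zero_iff] at h0
    rcases h0 with h0 | ⟨j, -, h0⟩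
    · have : w = (a : ℂ) := by simpa [sub_eq_zero] using h0
      rw [this, Complex.norm_real, Real.norm_of_nonneg ha0]; exact ha1
    · have : w = z j := by simpa [sub_eq_zero] using h0
      rw [this]; exact hz j
  have haP : (a : ℂ) ∈ P.roots := by
    rw [mem_roots hP0, IsRoot.def, hP]; simp
  have key := Pool.Agent.H23.Send.key P (by omega) (by omega) hroots a haP h
  have hc : (derivative P).roots.card = m := by
    rw [IsAlgClosed.card_roots_eq_natDegree, natDegree_derivative, hdeg]; rfl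
  have e : (fun w : ℂ => ‖(a : ℂ) - w‖⁻¹) = (fun w : ℂ => ‖w - (a : ℂ)‖⁻¹) := by
    funext w; rw [norm_sub_rev]
  rw [e, hdeg] at key
  push_cast at key
  have t := two_mul_le (derivative P).roots a
  rw [hc] at t
  exact ⟨by linarith, by linarith⟩

theorem result :
    ∀ (m : ℕ), 1 ≤ m → m ≤ 4 → ∀ (a : ℝ), 0 ≤ a → a ≤ 1 → ∀ z : Fin m → ℂ, (∀ j, ‖z j‖ ≤ 1) →
      ((a : ℂ) ∈ (derivative ((X - C (a : ℂ)) * ∏ j, (X - C (z j)))).roots) ∨
      (m : ℝ) ≤ (((derivative ((X - C (a : ℂ)) * ∏ j, (X - C (z j)))).roots).map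
          (fun w : ℂ => (‖w - (a : ℂ)‖ ^ 2)⁻¹)).sum :=
  fun m h1 h4 a h0 ha z hz => (full m h1 h4 a h0 ha z hz).imp id And.left

end Pool.Agent.Results.MP_f0bc87_an.LowDegree
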